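import Pool.Agent.H.MP_868dd6_pr.A

namespace Pool.Agent.Results.MP_868dd6_pr.Canopy

open MeasureTheory ProbabilityTheory
open scoped ENNReal

def walk {W : Type} (x : W) (ω : ℕ → W → W) : ℕ → W
  | 0 => x
  | t + 1 => ω t (walk x ω t)

noncomputable def prob {W : Type} (Γ : SimpleGraph W) (A : Set (ℕ → W → W)) : ℝ≥0∞ :=
  letI : MeasurableSpace W := ⊤
  Measure.infinitePi (fun _ : ℕ => Measure.infinitePi fun v => uniformOn (Γ.neighborSet v)) A

def pow {W : Type} (Γ : SimpleGraph W) (k : ℕ) : SimpleGraph W where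
  Adj x y := x ≠ y ∧ Γ.edist x y ≤ k
  symm := ⟨fun _ _ h => ⟨h.1.symm, SimpleGraph.edist_comm ▸ h.2⟩⟩
  loopless := ⟨fun _ h => h.1 rfl⟩

open Pool.Agent.H.MP_868dd6_pr Pool.Agent.Lib.helper3

lemma walk_eq {W : Type} (x : W) (ω : ℕ → W → W) (t : ℕ) : walk x ω t = SRW.walk x ω t := by
  induction t with
  | zero => rfl
  | succ t ih => rw [walk, ih, SRW.walk]

lemma ball (k : ℕ) : ∀ x, {y | G.edist x y ≤ k}.Finite := by
  induction k with
  | zero => exact fun x => (Set.finite_singleton x).subset fun y h => by simpa using h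
  | succ k ih =>
    refine fun x => (((fin x).biUnion fun z _ => ih z).insert x).subset fun y h => ?_
    obtain ⟨p, hp⟩ := SimpleGraph.exists_walk_of_edist_ne_top (ne_top_of_le_ne_top (by simp) h)
    cases p with
    | nil => simp
    | cons a q =>
      refine Or.inr (Set.mem_biUnion a ((SimpleGraph.edist_le q).trans ?_))
      simpa using hp.le.trans h

lemma nb (v : V) : ∃ w, G.Adj v w := by
  by_cases k : v.1.1.2 = 0
  · exact ⟨md v.1.1.1 0 v.2, Or.inr (by simp [rel, md, k])⟩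
  · exact ⟨hb v.1.1.1 v.2, Or.inl (by simp [rel, hb, k])⟩

theorem result : ∃ (W : Type) (_ : Countable W) (Γ : SimpleGraph W) (μ : PMF W), Γ.Connected ∧
    (∀ k v, ((pow Γ k).neighborSet v).Finite) ∧ (∀ v, (Γ.neighborSet v).Finite) ∧
    (∀ f : W → W → ℝ≥0∞, (∀ (φ : Γ ≃g Γ) x y, f (φ x) (φ y) = f x y) →
      ∑' x, μ x * ∑' y, f x y = ∑' x, μ x * ∑' y, f y x) ∧
    (∃ C c : ℝ, 0 < C ∧ 0 < c ∧ ∀ n : ℕ, μ.toOuterMeasure {x | n ≤ (Γ.neighborSet x).ncard} ≤
      ENNReal.ofReal (C * Real.exp (-c * n))) ∧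
    (∀ x, prob Γ {ω | ∃ t, walk x ω (t + 1) = x} = 1) ∧
    ∃ x, 0 < μ x ∧ ∀ k ≥ 2, 0 < prob (pow Γ k) {ω | ∀ t, walk x ω (t + 1) ≠ x} := by
  have hk : ∀ k v, ((pow G k).neighborSet v).Finite := fun k v => (ball k v).subset fun _ h => h.2
  obtain ⟨C, c, h1, h2, h3⟩ := tail
  refine ⟨V, inferInstance, G, ⟨wt, wt_sum ▸ ENNReal.summable.hasSum⟩, conn, hk, fin, mtp,
    ⟨C, c, h1, h2, fun n => le_of_eq_of_le ?_ (h3 n)⟩, fun x => ?_, md 0 0 0, ?_, fun k h => ?_⟩
  · rw [PMF.toOuterMeasure_apply]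
    exact tsum_congr fun v => by
      by_cases k : n ≤ (G.neighborSet v).ncard <;> simp [k]
      rfl
  · let _ : MeasurableSpace V := ⊤
    let _ : G.LocallyFinite := fun v => (fin v).fintype
    have hG : ∀ v, 0 < G.degree v := fun v => (G.degree_pos_iff_exists_adj v).mpr (nb v)
    have := SRW.pr G hG
    simp only [prob, walk_eq]
    refine (mem_ae_iff_prob_eq_one ?_).mp (mem_ae_iff.mpr ?_)
    · rw [Set.ofPred_exists]
      exact .iUnion fun t => SRW.walk_meas x (t + 1) (measurableSet_singleton x)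
    · simpa [Set.compl_ofPred] using SRW.recurrent G x hG (small x)
  · exact (show 0 < wt (md 0 0 0) by simp [wt, md])
  · let _ : (pow G k).LocallyFinite := fun v => (hk k v).fintype
    simp only [prob, walk_eq]
    refine SRW.transient _ _ (fun v => ((pow G k).degree_pos_iff_exists_adj v).mpr ?_) 1 one_pos
      fun f a b => ?_
    · obtain ⟨w, hw⟩ := nb v
      exact ⟨w, hw.ne, (SimpleGraph.edist_le hw.toWalk).trans (by simp; omega)⟩
    · obtain ⟨s, h4, h5⟩ := large f a b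
      refine ⟨s, fun p hp => ?_, h5⟩
      obtain ⟨h6, z, h7, h8⟩ := h4 p hp
      exact ⟨h6, (SimpleGraph.edist_le (.cons h7 h8.toWalk)).trans (by exact_mod_cast h)⟩

end Pool.Agent.Results.MP_868dd6_pr.Canopy
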